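import Pool.Agent.H83.X.T1

/-!
Theorem X, modules POL (the theorem of Pollard) and MAJ (majorization for sets).
-/

set_option autoImplicit false

open Finset

namespace Pool.Agent.H67.X

open Pool.Agent.H83.X

section
variable {p : ℕ} [Fact p.Prime]

/-- number of representations -/
def rr (A B : Finset (ZMod p)) (x : ZMod p) : ℕ := ∑ a ∈ A, ∑ b ∈ B, if a + b = x then 1 else 0

/-- truncated sum -/
def SS (A B : Finset (ZMod p)) (t : ℕ) : ℕ := ∑ x : ZMod p, min t (rr A B x)

theorem rr_comm (A B : Finset (ZMod p)) (x : ZMod p) : rr A B x = rr B A x := by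
  unfold rr
  rw [Finset.sum_comm]
  refine Finset.sum_congr rfl fun b _ => Finset.sum_congr rfl fun a _ => ?_
  rw [add_comm]

theorem rr_union_left (A A' B : Finset (ZMod p)) (h : Disjoint A A') (x : ZMod p) :
    rr (A ∪ A') B x = rr A B x + rr A' B x := by
  unfold rr
  exact Finset.sum_union h

theorem rr_union_right (A B B' : Finset (ZMod p)) (h : Disjoint B B') (x : ZMod p) :
    rr A (B ∪ B') x = rr A B x + rr A B' x := by
  rw [rr_comm, rr_union_left _ _ _ h, rr_comm B, rr_comm B']

theorem rr_le_left (A B : Finset (ZMod p)) (x : ZMod p) : rr A B x ≤ A.card := by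
  unfold rr
  rw [Finset.card_eq_sum_ones]
  refine Finset.sum_le_sum fun a _ => ?_
  have h1 : ∀ b, (if a + b = x then 1 else 0 : ℕ) = if b = x - a then 1 else 0 := by
    intro b
    congr 1
    rw [eq_iff_iff]
    constructor
    · intro h; rw [← h]; ring
    · intro h; rw [h]; ring
  rw [Finset.sum_congr rfl fun b _ => h1 b, Finset.sum_ite_eq']
  split_ifs <;> omega

theorem rr_le_right (A B : Finset (ZMod p)) (x : ZMod p) : rr A B x ≤ B.card := by
  rw [rr_comm]; exact rr_le_left B A x

theorem rr_sum (A B : Finset (ZMod p)) : ∑ x : ZMod p, rr A B x = A.card * B.card := by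
  unfold rr
  rw [Finset.sum_comm]
  have : ∀ a ∈ A, ∑ x : ZMod p, ∑ b ∈ B, (if a + b = x then 1 else 0 : ℕ) = B.card := by
    intro a _
    rw [Finset.sum_comm, Finset.card_eq_sum_ones]
    refine Finset.sum_congr rfl fun b _ => ?_
    rw [Finset.sum_ite_eq]
    simp
  rw [Finset.sum_congr rfl this, Finset.sum_const, smul_eq_mul]

theorem rr_mono (A B B' : Finset (ZMod p)) (h : B ⊆ B') (x : ZMod p) :
    rr A B x ≤ rr A B' x := by
  unfold rr
  exact Finset.sum_le_sum fun a _ => Finset.sum_le_sum_of_subset h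

theorem SS_mono (A B B' : Finset (ZMod p)) (h : B ⊆ B') (t : ℕ) : SS A B t ≤ SS A B' t :=
  Finset.sum_le_sum fun x _ => min_le_min le_rfl (rr_mono A B B' h x)

theorem rr_shift (A B : Finset (ZMod p)) (e x : ZMod p) :
    rr A (B.image (· + e)) x = rr A B (x - e) := by
  classical
  unfold rr
  refine Finset.sum_congr rfl fun a _ => ?_
  rw [Finset.sum_image (fun b _ b' _ h => add_right_cancel h)]
  refine Finset.sum_congr rfl fun b _ => ?_
  congr 1
  rw [eq_iff_iff]
  constructor
  · intro h; rw [← h]; ring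
  · intro h
    have : a + (b + e) = (a + b) + e := by ring
    rw [this, h]; ring

theorem SS_shift (A B : Finset (ZMod p)) (e : ZMod p) (t : ℕ) :
    SS A (B.image (· + e)) t = SS A B t := by
  unfold SS
  rw [← (Equiv.subRight e).sum_comp (fun x => min t (rr A B x))]
  refine Finset.sum_congr rfl fun x _ => ?_
  rw [rr_shift]
  rfl

/-- the decomposition -/
theorem rr_dec (A B : Finset (ZMod p)) (x : ZMod p) :
    rr A B x = rr (A \ B) (B \ A) x + rr (A ∪ B) (A ∩ B) x := by
  classical
  have hA : (A \ B) ∪ (A ∩ B) = A := Finset.sdiff_union_inter A B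
  have hB : (B \ A) ∪ (A ∩ B) = B := by rw [Finset.inter_comm]; exact Finset.sdiff_union_inter B A
  have hU : A ∪ (B \ A) = A ∪ B := Finset.union_sdiff_self_eq_union
  have dA : Disjoint (A \ B) (A ∩ B) := Finset.disjoint_sdiff_inter A B
  have dB : Disjoint (B \ A) (A ∩ B) := by rw [Finset.inter_comm]; exact Finset.disjoint_sdiff_inter B A
  have dU : Disjoint A (B \ A) := Finset.disjoint_sdiff
  have e1 : rr A B x = rr A (B \ A) x + rr A (A ∩ B) x := by
    conv_lhs => rw [← hB]
    exact rr_union_right _ _ _ dB x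
  have e2 : rr A (B \ A) x = rr (A \ B) (B \ A) x + rr (A ∩ B) (B \ A) x := by
    have h := rr_union_left (A \ B) (A ∩ B) (B \ A) dA x
    rwa [hA] at h
  have e3 : rr (A ∪ B) (A ∩ B) x = rr A (A ∩ B) x + rr (B \ A) (A ∩ B) x := by
    rw [← hU]
    exact rr_union_left _ _ _ dU x
  rw [e1, e2, e3, rr_comm (A ∩ B) (B \ A)]
  ring

/-- a good translation -/
theorem exists_e (A B : Finset (ZMod p)) (hA : A.Nonempty) (hAp : A.card < p) (hB : 2 ≤ B.card) :
    ∃ e : ZMod p, (A ∩ B.image (· + e)).Nonempty ∧ (A ∩ B.image (· + e)).card < B.card := by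
  classical
  by_contra hcon
  push Not at hcon
  obtain ⟨b, hb, b', hb', hbb⟩ := Finset.one_lt_card.1 (show 1 < B.card by omega)
  obtain ⟨a₀, ha₀⟩ := hA
  have hcardim : ∀ e : ZMod p, (B.image (· + e)).card = B.card := fun e =>
    Finset.card_image_of_injective _ (add_left_injective e)
  have key : ∀ a ∈ A, a + (b' - b) ∈ A := by
    intro a ha
    have h1 : a ∈ B.image (· + (a - b)) := Finset.mem_image.2 ⟨b, hb, by ring⟩
    have h2 := hcon (a - b) ⟨a, Finset.mem_inter.2 ⟨ha, h1⟩⟩
    have h3 : A ∩ B.image (· + (a - b)) = B.image (· + (a - b)) := by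
      apply Finset.eq_of_subset_of_card_le Finset.inter_subset_right
      rw [hcardim]; exact h2
    have h4 : a + (b' - b) ∈ B.image (· + (a - b)) := Finset.mem_image.2 ⟨b', hb', by ring⟩
    rw [← h3] at h4
    exact (Finset.mem_inter.1 h4).1
  have key2 : ∀ k : ℕ, a₀ + (k : ZMod p) * (b' - b) ∈ A := by
    intro k
    induction k with
    | zero => simpa using ha₀
    | succ k ih =>
      have := key _ ih
      have e1 : a₀ + ((k + 1 : ℕ) : ZMod p) * (b' - b) = a₀ + (k : ZMod p) * (b' - b) + (b' - b) := by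
        push_cast; ring
      rw [e1]; exact this
  have hd : b' - b ≠ 0 := sub_ne_zero.2 (Ne.symm hbb)
  have hall : A = Finset.univ := by
    rw [Finset.eq_univ_iff_forall]
    intro c
    have h5 := key2 ((c - a₀) / (b' - b)).val
    rw [ZMod.natCast_zmod_val, div_mul_cancel₀ _ hd] at h5
    simpa using h5
  rw [hall, Finset.card_univ, ZMod.card] at hAp
  exact lt_irrefl _ hAp

theorem pollard : ∀ (n : ℕ) (A B : Finset (ZMod p)) (t : ℕ), B.card = n → t ≤ A.card →
    t ≤ B.card → t * min p (A.card + B.card - t) ≤ SS A B t := by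
  classical
  intro n
  induction n using Nat.strong_induction_on with
  | _ n ih =>
    intro A B t hBn hA hB
    have hAp : A.card ≤ p := by
      have := Finset.card_le_univ A
      rwa [ZMod.card] at this
    rcases Nat.eq_zero_or_pos t with ht0 | ht0
    · subst ht0; simp
    by_cases h0 : p < A.card + B.card - t
    · -- reduction to a smaller set
      obtain ⟨B1, hB1, hc1⟩ := Finset.exists_subset_card_eq (s := B) (n := p + t - A.card) (by omega)
      have h1 := ih B1.card (by omega) A B1 t rfl hA (by omega)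
      have h2 : A.card + B1.card - t = p := by omega
      rw [h2, min_self] at h1
      rw [min_eq_left h0.le]
      exact h1.trans (SS_mono A B1 B hB1 t)
    push Not at h0
    rw [min_eq_right h0]
    rcases eq_or_lt_of_le hB with htB | htB
    · -- t = |B|
      have h1 : SS A B t = A.card * B.card := by
        rw [← rr_sum]
        refine Finset.sum_congr rfl fun x _ => ?_
        rw [min_eq_right]
        rw [htB]; exact rr_le_right A B x
      rw [h1, ← htB, Nat.add_sub_cancel, mul_comm]
    -- the main case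
    obtain ⟨e, he1, he2⟩ := exists_e A B (Finset.card_pos.1 (by omega)) (by omega) (by omega)
    set B2 := B.image (· + e) with hB2
    have hc2 : B2.card = B.card := Finset.card_image_of_injective _ (add_left_injective e)
    rw [← SS_shift A B e t, ← hB2]
    have hIpos : 0 < (A ∩ B2).card := Finset.card_pos.2 he1
    have hui : (A ∪ B2).card + (A ∩ B2).card = A.card + B2.card := Finset.card_union_add_card_inter A B2
    rcases le_or_gt t (A ∩ B2).card with h3 | h3
    · have h4 := ih (A ∩ B2).card (by omega) (A ∪ B2) (A ∩ B2) t rfl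
        (h3.trans (Finset.card_le_card (Finset.inter_subset_union))) h3
      have h5 : (A ∪ B2).card + (A ∩ B2).card - t = A.card + B.card - t := by omega
      rw [h5, min_eq_right h0] at h4
      refine h4.trans (Finset.sum_le_sum fun x _ => min_le_min le_rfl ?_)
      rw [rr_dec A B2 x]
      exact Nat.le_add_left _ _
    · have hcA : (A \ B2).card + (A ∩ B2).card = A.card := Finset.card_sdiff_add_card_inter A B2
      have hcB : (B2 \ A).card + (A ∩ B2).card = B2.card := by
        rw [Finset.inter_comm]; exact Finset.card_sdiff_add_card_inter B2 A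
      set i := (A ∩ B2).card with hi
      obtain ⟨t', ht'⟩ : ∃ t', t = i + t' := ⟨t - i, by omega⟩
      have h4 := ih (B2 \ A).card (by omega) (A \ B2) (B2 \ A) t' rfl (by omega) (by omega)
      have h5 : (A \ B2).card + (B2 \ A).card - t' ≤ p := by omega
      rw [min_eq_right h5] at h4
      have h6 : SS (A \ B2) (B2 \ A) t' + (A ∪ B2).card * i ≤ SS A B2 t := by
        rw [hi, ← rr_sum]
        unfold SS
        rw [← Finset.sum_add_distrib]
        refine Finset.sum_le_sum fun x _ => ?_
        have h7 := rr_dec A B2 x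
        have h8 := rr_le_right (A ∪ B2) (A ∩ B2) x
        rw [h7]
        rw [← hi] at h8
        omega
      refine le_trans ?_ h6
      obtain ⟨c, hc⟩ : ∃ c, (A \ B2).card + (B2 \ A).card = t' + c :=
        ⟨(A \ B2).card + (B2 \ A).card - t', by omega⟩
      have e1 : A.card + B.card - t = i + c := by omega
      have e2 : (A \ B2).card + (B2 \ A).card - t' = c := by omega
      have e3 : (A ∪ B2).card = t' + c + i := by omega
      rw [e1, e3]
      rw [e2] at h4
      rw [ht']
      nlinarith

end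

theorem pf_POL : T_POL := by
  classical
  intro p _ A B t hA hB
  have h := pollard B.card A B t rfl hA hB
  unfold SS at h
  convert h using 3 with x
  unfold rr
  rw [Finset.card_filter, Finset.sum_product]

/-! ## Majorization -/

/-- discrete Taylor formula -/
theorem taylor (g : ℕ → ℝ) (n : ℕ) : ∀ r : ℕ, r ≤ n + 1 →
    g r = g 0 + r * (g (n + 1) - g n) -
      ∑ s ∈ range n, ((g (s + 2) - g (s + 1)) - (g (s + 1) - g s)) * ((min (s + 1) r : ℕ) : ℝ) := by
  have tel : ∀ r k : ℕ, ∑ s ∈ range (r + k),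
      ((g (s + 2) - g (s + 1)) - (g (s + 1) - g s)) * (if r ≤ s then (1 : ℝ) else 0) =
      (g (r + k + 1) - g (r + k)) - (g (r + 1) - g r) := by
    intro r k
    induction k with
    | zero =>
      rw [Finset.sum_eq_zero]
      · simp
      · intro s hs
        rw [Finset.mem_range] at hs
        rw [if_neg (by omega), mul_zero]
    | succ k ih =>
      rw [← add_assoc, Finset.sum_range_succ, ih, if_pos (by omega)]
      ring
  intro r
  induction r with
  | zero => intro _; simp
  | succ r ih =>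
    intro hr
    have h1 := ih (by omega)
    obtain ⟨k, hk⟩ : ∃ k, n = r + k := ⟨n - r, by omega⟩
    have h2 := tel r k
    rw [← hk] at h2
    have h3 : ∀ s : ℕ, ((min (s + 1) (r + 1) : ℕ) : ℝ) =
        ((min (s + 1) r : ℕ) : ℝ) + (if r ≤ s then (1 : ℝ) else 0) := by
      intro s
      split_ifs with h
      · have : min (s + 1) (r + 1) = min (s + 1) r + 1 := by omega
        rw [this]; push_cast; ring
      · have : min (s + 1) (r + 1) = min (s + 1) r := by omega
        rw [this, add_zero]
    have h4 : ∑ s ∈ range n, ((g (s + 2) - g (s + 1)) - (g (s + 1) - g s)) *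
        ((min (s + 1) (r + 1) : ℕ) : ℝ) =
        ∑ s ∈ range n, ((g (s + 2) - g (s + 1)) - (g (s + 1) - g s)) * ((min (s + 1) r : ℕ) : ℝ) +
        ((g (n + 1) - g n) - (g (r + 1) - g r)) := by
      rw [← h2, ← Finset.sum_add_distrib]
      refine Finset.sum_congr rfl fun s _ => ?_
      rw [h3 s]; ring
    rw [h4, Nat.cast_add, Nat.cast_one]
    linarith

theorem sum_min (t k : ℕ) : ∑ r ∈ range (t + k), 2 * min t r + t + t * t = 2 * (t + k) * t := by
  induction k with
  | zero =>
    have h1 : ∑ r ∈ range (t + 0), 2 * min t r = t * (t - 1) := by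
      rw [add_zero, ← Finset.sum_range_id_mul_two, Finset.sum_mul]
      refine Finset.sum_congr rfl fun r hr => ?_
      rw [Finset.mem_range] at hr
      rw [min_eq_right hr.le, mul_comm]
    rw [h1]
    cases t with
    | zero => simp
    | succ t => simp only [Nat.add_sub_cancel]; ring
  | succ k ih =>
    rw [← add_assoc, Finset.sum_range_succ, min_eq_left (by omega)]
    nlinarith

theorem pf_MAJ (h : T_POL) : T_MAJ := by
  classical
  intro p m _ A B ph hp hA hB hph
  have hp1 : p ≠ 1 := (Fact.out : p.Prime).one_lt.ne'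
  obtain ⟨n, hn⟩ : ∃ n, m = n + 1 := ⟨m - 1, by omega⟩
  set r : ZMod p → ℕ := fun x => ((A ×ˢ B).filter fun q => q.1 + x = q.2).card with hr
  have hrr : ∀ x, r x = ((B ×ˢ A.image (fun a => -a)).filter fun q => q.1 + q.2 = x).card := by
    intro x
    refine Finset.card_bij (fun q _ => (q.2, -q.1)) ?_ ?_ ?_
    · rintro ⟨a, b⟩ hq
      rw [Finset.mem_filter, Finset.mem_product] at hq ⊢
      refine ⟨⟨hq.1.2, Finset.mem_image.2 ⟨a, hq.1.1, rfl⟩⟩, ?_⟩
      simp only at hq ⊢
      rw [← hq.2]; ring
    · rintro ⟨a, b⟩ _ ⟨a', b'⟩ _ h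
      simp only [Prod.mk.injEq, neg_inj] at h
      rw [h.1, h.2]
    · rintro ⟨b, c⟩ hq
      rw [Finset.mem_filter, Finset.mem_product] at hq
      obtain ⟨⟨h1, h2⟩, h3⟩ := hq
      obtain ⟨a, ha, hac⟩ := Finset.mem_image.1 h2
      simp only at hac h3 h1
      refine ⟨(a, b), ?_, by simp [hac]⟩
      rw [Finset.mem_filter, Finset.mem_product]
      refine ⟨⟨ha, h1⟩, ?_⟩
      simp only
      rw [← h3, ← hac]; ring
  have hcA : (A.image (fun a => -a)).card = m := by
    rw [Finset.card_image_of_injective _ neg_injective, hA]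
  have hrk : ∀ x, r x = rr B (A.image (fun a => -a)) x := by
    intro x
    rw [hrr]; unfold rr
    rw [Finset.card_filter, Finset.sum_product]
  have hrm : ∀ x, r x ≤ n + 1 := by
    intro x
    rw [hrk, ← hn, ← hB]
    exact rr_le_left _ _ _
  have hsum : ∑ x, r x = m * m := by
    rw [Finset.sum_congr rfl fun x _ => hrk x, rr_sum, hB, hcA]
  have hpol : ∀ t, t ≤ m → t * (2 * m - t) ≤ ∑ x : ZMod p, min t (r x) := by
    intro t ht
    have h1 := h p B (A.image (fun a => -a)) t (by omega) (by omega)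
    rw [hB, hcA] at h1
    have h2 : min p (m + m - t) = 2 * m - t := by
      rw [min_eq_right (by omega)]; omega
    rw [h2] at h1
    refine h1.trans (le_of_eq ?_)
    refine Finset.sum_congr rfl fun x _ => ?_
    rw [hrr x]
  set g : ℕ → ℝ := fun k => ph (k : ℝ) with hg
  have hc : ∀ s : ℕ, 0 ≤ (g (s + 2) - g (s + 1)) - (g (s + 1) - g s) := by
    intro s
    have h1 := hph.2 (Set.mem_univ (s : ℝ)) (Set.mem_univ ((s : ℝ) + 2))
      (show (0 : ℝ) ≤ 1 / 2 by norm_num) (show (0 : ℝ) ≤ 1 / 2 by norm_num) (by norm_num)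
    have h2 : (1 / 2 : ℝ) • (s : ℝ) + (1 / 2 : ℝ) • ((s : ℝ) + 2) = (s : ℝ) + 1 := by
      simp only [smul_eq_mul]; ring
    rw [h2] at h1
    simp only [smul_eq_mul] at h1
    simp only [hg]
    push_cast
    linarith
  set c : ℕ → ℝ := fun s => (g (s + 2) - g (s + 1)) - (g (s + 1) - g s) with hcd
  have hT : ∀ k : ℕ, k ≤ n + 1 → g k = g 0 + k * (g (n + 1) - g n) -
      ∑ s ∈ range n, c s * ((min (s + 1) k : ℕ) : ℝ) := taylor g n
  -- left side
  have hL : ∑ x : ZMod p, g (r x) = (p : ℝ) * g 0 + ((m * m : ℕ) : ℝ) * (g (n + 1) - g n) -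
      ∑ s ∈ range n, c s * ((∑ x : ZMod p, min (s + 1) (r x) : ℕ) : ℝ) := by
    rw [Finset.sum_congr rfl fun x _ => hT (r x) (hrm x), Finset.sum_sub_distrib,
      Finset.sum_add_distrib, Finset.sum_const, Finset.card_univ, ZMod.card, nsmul_eq_mul,
      ← Finset.sum_mul, ← Nat.cast_sum, hsum, Finset.sum_comm]
    congr 1
    refine Finset.sum_congr rfl fun s _ => ?_
    rw [Nat.cast_sum, Finset.mul_sum]
  have hR : ∑ k ∈ range m, 2 * g k + g m = (p : ℝ) * g 0 + ((m * m : ℕ) : ℝ) * (g (n + 1) - g n) -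
      ∑ s ∈ range n, c s * (((s + 1) * (2 * m - (s + 1)) : ℕ) : ℝ) := by
    have h1 : ∀ k ∈ range m, 2 * g k = 2 * g 0 + ((2 * k : ℕ) : ℝ) * (g (n + 1) - g n) -
        ∑ s ∈ range n, c s * ((2 * min (s + 1) k : ℕ) : ℝ) := by
      intro k hk
      rw [Finset.mem_range] at hk
      rw [hT k (by omega), mul_sub, Finset.mul_sum]
      push_cast
      have : ∀ s ∈ range n, 2 * (c s * min ((s : ℝ) + 1) (k : ℝ)) =
          c s * (2 * min ((s : ℝ) + 1) (k : ℝ)) := fun s _ => by ring
      rw [Finset.sum_congr rfl this]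
      ring
    have h2 : ∀ s ∈ range n, c s * (((s + 1) * (2 * m - (s + 1)) : ℕ) : ℝ) =
        (∑ k ∈ range m, c s * ((2 * min (s + 1) k : ℕ) : ℝ)) + c s * ((min (s + 1) m : ℕ) : ℝ) := by
      intro s hs
      rw [Finset.mem_range] at hs
      obtain ⟨k, hk⟩ : ∃ k, m = (s + 1) + k := ⟨m - (s + 1), by omega⟩
      have h3 := sum_min (s + 1) k
      rw [← hk] at h3
      rw [← Finset.mul_sum, ← mul_add, ← Nat.cast_sum, ← Nat.cast_add, min_eq_left (by omega)]
      congr 2
      have h4 : (s + 1) * (2 * m - (s + 1)) + (s + 1) * (s + 1) = 2 * m * (s + 1) := by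
        rw [← mul_add, Nat.sub_add_cancel (by omega)]; ring
      omega
    rw [Finset.sum_congr rfl h2, Finset.sum_add_distrib, Finset.sum_congr rfl h1,
      Finset.sum_sub_distrib, Finset.sum_add_distrib, Finset.sum_const, Finset.card_range,
      nsmul_eq_mul, ← Finset.sum_mul, hT m (by omega), Finset.sum_comm]
    have h5 : ((∑ k ∈ range m, ((2 * k : ℕ) : ℝ))) + (m : ℝ) = ((m * m : ℕ) : ℝ) := by
      rw [← Nat.cast_sum, ← Nat.cast_add]
      congr 1
      rw [← Finset.mul_sum, mul_comm, Finset.sum_range_id_mul_two, hn]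
      simp only [Nat.add_sub_cancel]
      ring
    rw [← h5, hp]
    push_cast
    ring
  have hgoal : ∑ x : ZMod p, ph ((r x : ℕ) : ℝ) ≤ ∑ k ∈ range m, 2 * ph (k : ℝ) + ph (m : ℝ) := by
    change ∑ x : ZMod p, g (r x) ≤ ∑ k ∈ range m, 2 * g k + g m
    rw [hL, hR]
    have h1 : ∑ s ∈ range n, c s * (((s + 1) * (2 * m - (s + 1)) : ℕ) : ℝ) ≤
        ∑ s ∈ range n, c s * ((∑ x : ZMod p, min (s + 1) (r x) : ℕ) : ℝ) := by
      refine Finset.sum_le_sum fun s hs => ?_
      rw [Finset.mem_range] at hs
      refine mul_le_mul_of_nonneg_left ?_ (hc s)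
      exact_mod_cast hpol (s + 1) (by omega)
    linarith
  exact hgoal

end Pool.Agent.H67.X
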