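import Pool.Agent.H83.X.T1
import Pool.Agent.H52.AG.VPR
import Pool.Agent.H18.AG.VDY

/-!
Theorem X, module VWT: exponential sums over primes with monotone weights.
-/

set_option autoImplicit false

open Filter Topology Finset
open Pool.Agent.H24.AG
open ArithmeticFunction (vonMangoldt)

namespace Pool.Agent.H67.X

open Pool.Agent.H83.X
open Pool.Agent.H24.T2 (Pset)

theorem vprY (h : T_VIR) (θ : ℝ) (hθ : Irrational θ) (ε : ℝ) (hε : 0 < ε) : ∃ m₀ : ℕ, ∀ m : ℕ,
    m₀ ≤ m → ∀ Y : ℕ, 2 ^ m < Y → Y ≤ 2 ^ (m + 1) →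
    ‖∑ p ∈ (Finset.Ioc (2 ^ m) Y).filter Nat.Prime, ee (θ * p)‖ ≤ ε * 2 ^ m / m := by
  obtain ⟨X₀, hX₀⟩ := h θ hθ (ε / 12) (by positivity)
  have hlim := Pool.Agent.H52.AG.ev_pow (show (0 : ℝ) < ε / 2 by positivity)
  obtain ⟨m₁, hm₁⟩ := eventually_atTop.1 hlim
  refine ⟨max (max m₁ X₀) 1, fun m hm Y hNY hY2 => ?_⟩
  have hm1 : m₁ ≤ m := (le_max_left _ _).trans ((le_max_left _ _).trans hm)
  have hm2 : X₀ ≤ m := (le_max_right _ _).trans ((le_max_left _ _).trans hm)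
  have hm3 : 1 ≤ m := (le_max_right _ _).trans hm
  have hmR : (1 : ℝ) ≤ m := by exact_mod_cast hm3
  have hl2 : (0.69 : ℝ) < Real.log 2 := by
    have := Real.log_two_gt_d9
    linarith
  set N := 2 ^ m with hN
  have hNR : (N : ℝ) = 2 ^ m := by rw [hN]; push_cast; rfl
  have hX : X₀ ≤ 2 ^ (m + 1) := by
    refine hm2.trans (Nat.lt_two_pow_self.le.trans ?_)
    exact Nat.pow_le_pow_right (by norm_num) (Nat.le_succ m)
  have hN2 : 2 ^ (m + 1) = 2 * N := by rw [hN, pow_succ]; ring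
  have hN0 : 0 < N := by positivity
  set a : ℕ → ℂ := fun n => ((vonMangoldt n : ℝ) : ℂ) * ee (θ * n) with ha
  set w : ℕ → ℝ := fun n => 1 / Real.log n with hw
  have hps : ∀ Y, Y ≤ 2 ^ (m + 1) → ‖∑ n ∈ Icc 1 Y, a n‖ ≤ ε / 12 * (2 ^ (m + 1) : ℕ) :=
    fun Y hY => hX₀ _ hX Y hY
  have hB : ∀ Y, N ≤ Y → Y ≤ 2 ^ (m + 1) → ‖∑ n ∈ Ioc N Y, a n‖ ≤ ε / 3 * 2 ^ m := by
    intro Y h1 h2
    have h3 := hps Y h2
    have h4 := hps N (by omega)
    have h5 : ∑ n ∈ Ioc N Y, a n = ∑ n ∈ Icc 1 Y, a n - ∑ n ∈ Icc 1 N, a n := by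
      have h6 : ∀ Z, Icc 1 Z = Ioc 0 Z := fun Z => by
        ext x
        simp only [mem_Icc, mem_Ioc]
        omega
      rw [h6, h6, ← sum_Ioc_consecutive a (Nat.zero_le N) h1]
      ring
    rw [h5]
    refine (norm_sub_le _ _).trans ?_
    have h7 : ((2 ^ (m + 1) : ℕ) : ℝ) = 2 * 2 ^ m := by push_cast; ring
    rw [h7] at h3 h4
    linarith
  have hlog : ∀ n : ℕ, N < n → m * Real.log 2 ≤ Real.log n := by
    intro n hn
    rw [← Real.log_pow]
    apply Real.log_le_log (by positivity)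
    rw [← hNR]
    exact_mod_cast hn.le
  have hml : 0 < m * Real.log 2 := by positivity
  have hwa : ∀ n : ℕ, N < n → w n ≤ 1 / (m * Real.log 2) := by
    intro n hn
    exact one_div_le_one_div_of_le hml (hlog n hn)
  have hw0 : ∀ n : ℕ, N < n → 0 ≤ w n := by
    intro n hn
    exact one_div_nonneg.2 (hml.le.trans (hlog n hn))
  have hwm : ∀ n : ℕ, N < n → w (n + 1) ≤ w n := by
    intro n hn
    apply one_div_le_one_div_of_le (hml.trans_le (hlog n hn))
    apply Real.log_le_log (by exact_mod_cast hN0.trans hn)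
    push_cast
    linarith
  have h1 := Pool.Agent.H52.AG.abel a w N Y _ hNY hwm hw0 (fun Z h1 h2 => hB Z h1 (h2.trans hY2))
  -- the prime powers
  have h2 : ∑ p ∈ (Ioc N Y).filter Nat.Prime, ee (θ * p) =
      ∑ n ∈ Ioc N Y, (w n : ℂ) * a n -
        ∑ n ∈ (Ioc N Y).filter (fun n => ¬ n.Prime), (w n : ℂ) * a n := by
    rw [← sum_filter_add_sum_filter_not (Ioc N Y) Nat.Prime (fun n => (w n : ℂ) * a n)]
    rw [add_sub_cancel_right]
    refine sum_congr rfl fun p hp => ?_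
    rw [mem_filter, mem_Ioc] at hp
    have h3 : Real.log p ≠ 0 := (hml.trans_le (hlog p hp.1.1)).ne'
    simp only [ha, hw]
    rw [ArithmeticFunction.vonMangoldt_apply_prime hp.2, ← mul_assoc, ← Complex.ofReal_mul,
      one_div_mul_cancel h3, Complex.ofReal_one, one_mul]
  have h3 : ‖∑ n ∈ (Ioc N Y).filter (fun n => ¬ n.Prime), (w n : ℂ) * a n‖ ≤
      1 / (m * Real.log 2) * (2 * √((2 : ℝ) ^ (m + 1)) * ((m + 1) * Real.log 2)) := by
    refine (norm_sum_le _ _).trans ?_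
    have h4 : ∀ n ∈ (Ioc N Y).filter (fun n => ¬ n.Prime), ‖(w n : ℂ) * a n‖ ≤
        1 / (m * Real.log 2) * vonMangoldt n := by
      intro n hn
      rw [mem_filter, mem_Ioc] at hn
      have h5 : ‖ee (θ * n)‖ = 1 := by
        unfold ee
        rw [Complex.norm_exp]
        simp
      simp only [ha]
      rw [norm_mul, norm_mul, h5, mul_one, Complex.norm_real, Complex.norm_real,
        Real.norm_of_nonneg (hw0 n hn.1.1),
        Real.norm_of_nonneg ArithmeticFunction.vonMangoldt_nonneg]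
      exact mul_le_mul_of_nonneg_right (hwa n hn.1.1) ArithmeticFunction.vonMangoldt_nonneg
    refine (sum_le_sum h4).trans ?_
    rw [← mul_sum]
    apply mul_le_mul_of_nonneg_left _ (by positivity)
    have h6 := Chebyshev.psi_sub_theta_le (x := (2 : ℝ) ^ (m + 1)) (one_le_pow₀ (by norm_num))
    rw [Chebyshev.psi_sub_theta_eq_sum_not_prime] at h6
    have h7 : ⌊(2 : ℝ) ^ (m + 1)⌋₊ = 2 ^ (m + 1) := by
      have : ((2 : ℝ) ^ (m + 1)) = ((2 ^ (m + 1) : ℕ) : ℝ) := by push_cast; rfl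
      rw [this, Nat.floor_natCast]
    rw [h7, Real.log_pow] at h6
    push_cast at h6
    refine le_trans ?_ h6
    apply sum_le_sum_of_subset_of_nonneg
    · intro n hn
      rw [mem_filter, mem_Ioc] at hn ⊢
      exact ⟨⟨by omega, hn.1.2.trans hY2⟩, hn.2⟩
    · intro n _ _
      exact ArithmeticFunction.vonMangoldt_nonneg
  rw [h2]
  refine (norm_sub_le _ _).trans ?_
  have h8 := hwa (N + 1) (Nat.lt_succ_self N)
  have h9 : ε / 3 * 2 ^ m * w (N + 1) ≤ ε / 3 * 2 ^ m * (1 / (m * Real.log 2)) :=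
    mul_le_mul_of_nonneg_left h8 (by positivity)
  have h10 := hm₁ m hm1
  have hm0 : (0 : ℝ) < m := by linarith
  have h11 : ε / 3 * 2 ^ m * (1 / (m * Real.log 2)) ≤ ε / 2 * 2 ^ m / m := by
    rw [mul_one_div, div_le_div_iff₀ hml hm0]
    have : ε / 3 * 2 ^ m * m ≤ ε / 2 * 2 ^ m * (m * Real.log 2) := by
      have h12 : 0 < ε * 2 ^ m * m := by positivity
      nlinarith
    exact this
  have h12 : 1 / (m * Real.log 2) * (2 * √((2 : ℝ) ^ (m + 1)) * ((m + 1) * Real.log 2)) ≤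
      ε / 2 * 2 ^ m / m := by
    have h13 : 1 / (m * Real.log 2) * (2 * √((2 : ℝ) ^ (m + 1)) * ((m + 1) * Real.log 2)) =
        (2 * √((2 : ℝ) ^ (m + 1)) * (m + 1)) / m := by
      have : Real.log 2 ≠ 0 := by positivity
      field_simp
    rw [h13]
    exact div_le_div_of_nonneg_right h10 hm0.le
  have h14 : ε * 2 ^ m / m = ε / 2 * 2 ^ m / m + ε / 2 * 2 ^ m / m := by ring
  rw [h14]
  linarith


/-- sums with a nondecreasing weight -/
theorem inc_bd (S : Finset ℕ) (b : ℕ → ℂ) (B : ℝ) : ∀ (u : ℕ → ℝ) (U : ℝ),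
    (∀ p ∈ S, 0 ≤ u p) → (∀ p ∈ S, u p ≤ U) → (∀ p ∈ S, ∀ q ∈ S, p ≤ q → u p ≤ u q) →
    0 ≤ U → 0 ≤ B →
    (∀ T ⊆ S, (∀ x ∈ T, ∀ y ∈ S, x ≤ y → y ∈ T) → ‖∑ p ∈ T, b p‖ ≤ B) →
    ‖∑ p ∈ S, (u p : ℂ) * b p‖ ≤ U * B := by
  induction S using Finset.induction_on_min with
  | empty => intro u U _ _ _ hU hB _; rw [Finset.sum_empty, norm_zero]; positivity
  | insert a s ha ih =>
    intro u U h0 h1 h2 hU hB hT
    have has : a ∉ s := fun h => lt_irrefl _ (ha a h)
    have hua := h0 a (Finset.mem_insert_self a s)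
    have huU := h1 a (Finset.mem_insert_self a s)
    have e1 : ∑ p ∈ insert a s, (u p : ℂ) * b p = (u a : ℂ) * ∑ p ∈ insert a s, b p +
        ∑ p ∈ s, ((u p - u a : ℝ) : ℂ) * b p := by
      rw [Finset.sum_insert has, Finset.sum_insert has, mul_add, Finset.mul_sum, add_assoc,
        ← Finset.sum_add_distrib]
      congr 1
      refine Finset.sum_congr rfl fun p _ => ?_
      push_cast; ring
    have e2 := hT (insert a s) (Finset.Subset.refl _) (fun _ _ y hy _ => hy)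
    have e3 := ih (fun p => u p - u a) (U - u a)
      (fun p hp => sub_nonneg.2 (h2 a (Finset.mem_insert_self a s) p (Finset.mem_insert_of_mem hp)
        (ha p hp).le))
      (fun p hp => by have := h1 p (Finset.mem_insert_of_mem hp); linarith)
      (fun p hp q hq hpq => by
        have := h2 p (Finset.mem_insert_of_mem hp) q (Finset.mem_insert_of_mem hq) hpq
        linarith) (by linarith) hB
      (fun T hTs hup => hT T (hTs.trans (Finset.subset_insert a s)) (fun x hx y hy hxy => by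
        rcases Finset.mem_insert.1 hy with rfl | hy
        · exact absurd (ha x (hTs hx)) (not_lt.2 hxy)
        · exact hup x hx y hy hxy))
    rw [e1]
    refine (norm_add_le _ _).trans ?_
    rw [norm_mul, Complex.norm_real, Real.norm_of_nonneg hua]
    have e4 := mul_le_mul_of_nonneg_left e2 hua
    calc u a * ‖∑ p ∈ insert a s, b p‖ + ‖∑ p ∈ s, ((u p - u a : ℝ) : ℂ) * b p‖
        ≤ u a * B + (U - u a) * B := add_le_add e4 e3
      _ = U * B := by ring

/-- sums with a nonincreasing weight -/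
theorem dec_bd (S : Finset ℕ) (b : ℕ → ℂ) (B : ℝ) : ∀ (u : ℕ → ℝ) (U : ℝ),
    (∀ p ∈ S, 0 ≤ u p) → (∀ p ∈ S, u p ≤ U) → (∀ p ∈ S, ∀ q ∈ S, p ≤ q → u q ≤ u p) →
    0 ≤ U → 0 ≤ B →
    (∀ T ⊆ S, (∀ x ∈ T, ∀ y ∈ S, y ≤ x → y ∈ T) → ‖∑ p ∈ T, b p‖ ≤ B) →
    ‖∑ p ∈ S, (u p : ℂ) * b p‖ ≤ U * B := by
  induction S using Finset.induction_on_max with
  | empty => intro u U _ _ _ hU hB _; rw [Finset.sum_empty, norm_zero]; positivity
  | insert a s ha ih =>
    intro u U h0 h1 h2 hU hB hT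
    have has : a ∉ s := fun h => lt_irrefl _ (ha a h)
    have hua := h0 a (Finset.mem_insert_self a s)
    have huU := h1 a (Finset.mem_insert_self a s)
    have e1 : ∑ p ∈ insert a s, (u p : ℂ) * b p = (u a : ℂ) * ∑ p ∈ insert a s, b p +
        ∑ p ∈ s, ((u p - u a : ℝ) : ℂ) * b p := by
      rw [Finset.sum_insert has, Finset.sum_insert has, mul_add, Finset.mul_sum, add_assoc,
        ← Finset.sum_add_distrib]
      congr 1
      refine Finset.sum_congr rfl fun p _ => ?_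
      push_cast; ring
    have e2 := hT (insert a s) (Finset.Subset.refl _) (fun _ _ y hy _ => hy)
    have e3 := ih (fun p => u p - u a) (U - u a)
      (fun p hp => sub_nonneg.2 (h2 p (Finset.mem_insert_of_mem hp) a (Finset.mem_insert_self a s)
        (ha p hp).le))
      (fun p hp => by have := h1 p (Finset.mem_insert_of_mem hp); linarith)
      (fun p hp q hq hpq => by
        have := h2 p (Finset.mem_insert_of_mem hp) q (Finset.mem_insert_of_mem hq) hpq
        linarith) (by linarith) hB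
      (fun T hTs hup => hT T (hTs.trans (Finset.subset_insert a s)) (fun x hx y hy hxy => by
        rcases Finset.mem_insert.1 hy with rfl | hy
        · exact absurd (ha x (hTs hx)) (not_lt.2 hxy)
        · exact hup x hx y hy hxy))
    rw [e1]
    refine (norm_add_le _ _).trans ?_
    rw [norm_mul, Complex.norm_real, Real.norm_of_nonneg hua]
    have e4 := mul_le_mul_of_nonneg_left e2 hua
    calc u a * ‖∑ p ∈ insert a s, b p‖ + ‖∑ p ∈ s, ((u p - u a : ℝ) : ℂ) * b p‖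
        ≤ u a * B + (U - u a) * B := add_le_add e4 e3
      _ = U * B := by ring

theorem Pset_two (m : ℕ) (hm : 1 ≤ m) :
    Pset 2 m = (Finset.Ioc (2 ^ m) (2 ^ (m + 1))).filter Nat.Prime := by
  ext p
  unfold Pset
  rw [Finset.mem_filter, Finset.mem_filter, Finset.mem_Ioc]
  constructor
  · rintro ⟨h1, h2, _⟩; exact ⟨h1, h2⟩
  · rintro ⟨h1, h2⟩
    refine ⟨h1, h2, ?_⟩
    have h3 : 2 ^ 1 ≤ 2 ^ m := Nat.pow_le_pow_right (by norm_num) hm
    rcases h2.eq_two_or_odd with h | h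
    · omega
    · rw [Nat.ModEq]; omega

/-- convex sets of primes -/
theorem convex_bd (θ : ℝ) (m : ℕ) (B : ℝ) (hB : 0 ≤ B)
    (h : ∀ Y : ℕ, 2 ^ m < Y → Y ≤ 2 ^ (m + 1) →
      ‖∑ p ∈ (Finset.Ioc (2 ^ m) Y).filter Nat.Prime, ee (θ * p)‖ ≤ B)
    (R : Finset ℕ) (hR : R ⊆ (Finset.Ioc (2 ^ m) (2 ^ (m + 1))).filter Nat.Prime)
    (hc : ∀ x ∈ R, ∀ z ∈ R, ∀ y ∈ (Finset.Ioc (2 ^ m) (2 ^ (m + 1))).filter Nat.Prime,
      x ≤ y → y ≤ z → y ∈ R) : ‖∑ p ∈ R, ee (θ * p)‖ ≤ 2 * B := by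
  rcases R.eq_empty_or_nonempty with hRe | hRn
  · rw [hRe, Finset.sum_empty, norm_zero]; positivity
  set a := R.min' hRn with ha
  set z := R.max' hRn with hz
  have haR := R.min'_mem hRn
  have hzR := R.max'_mem hRn
  rw [← ha] at haR
  rw [← hz] at hzR
  have ha1 := hR haR
  have hz1 := hR hzR
  rw [Finset.mem_filter, Finset.mem_Ioc] at ha1 hz1
  have haz : a ≤ z := R.min'_le z hzR
  have e1 : (Finset.Ioc (2 ^ m) z).filter Nat.Prime =
      (Finset.Ioc (2 ^ m) (a - 1)).filter Nat.Prime ∪ R := by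
    ext y
    rw [Finset.mem_union, Finset.mem_filter, Finset.mem_filter, Finset.mem_Ioc, Finset.mem_Ioc]
    constructor
    · rintro ⟨⟨h1, h2⟩, h3⟩
      rcases lt_or_ge y a with h4 | h4
      · left; exact ⟨⟨h1, by omega⟩, h3⟩
      · right
        refine hc a haR z hzR y ?_ h4 h2
        rw [Finset.mem_filter, Finset.mem_Ioc]
        exact ⟨⟨h1, h2.trans hz1.1.2⟩, h3⟩
    · rintro (⟨⟨h1, h2⟩, h3⟩ | h1)
      · exact ⟨⟨h1, by omega⟩, h3⟩
      · have h2 := hR h1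
        rw [Finset.mem_filter, Finset.mem_Ioc] at h2
        exact ⟨⟨h2.1.1, R.le_max' y h1⟩, h2.2⟩
  have e2 : Disjoint ((Finset.Ioc (2 ^ m) (a - 1)).filter Nat.Prime) R := by
    rw [Finset.disjoint_left]
    intro y hy hyR
    rw [Finset.mem_filter, Finset.mem_Ioc] at hy
    have := R.min'_le y hyR
    rw [← ha] at this
    omega
  have e3 := h z hz1.1.1 hz1.1.2
  rw [e1, Finset.sum_union e2] at e3
  have e4 : ‖∑ p ∈ (Finset.Ioc (2 ^ m) (a - 1)).filter Nat.Prime, ee (θ * p)‖ ≤ B := by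
    rcases Nat.lt_or_ge (2 ^ m) (a - 1) with h5 | h5
    · exact h (a - 1) h5 (by omega)
    · rw [Finset.Ioc_eq_empty (not_lt.2 h5), Finset.filter_empty, Finset.sum_empty, norm_zero]
      exact hB
  have e5 : ∑ p ∈ R, ee (θ * p) =
      (∑ p ∈ (Finset.Ioc (2 ^ m) (a - 1)).filter Nat.Prime, ee (θ * p) + ∑ p ∈ R, ee (θ * p)) -
      ∑ p ∈ (Finset.Ioc (2 ^ m) (a - 1)).filter Nat.Prime, ee (θ * p) := by ring
  rw [e5]
  refine (norm_sub_le _ _).trans ?_
  linarith

theorem pf_VWT (h : Pool.Agent.H24.AG.T_VIR) : T_VWT := by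
  intro w hw θ hθ
  obtain ⟨c, hc, m₁, hm₁⟩ := Pool.Agent.H18.AG.pf_VDY
  rw [Metric.tendsto_atTop]
  intro ε hε
  obtain ⟨m₂, hm₂⟩ := vprY h θ hθ (ε * c / 8) (by positivity)
  refine ⟨max (max m₁ m₂) 1, fun m hm => ?_⟩
  have h1 : m₁ ≤ m := (le_max_left _ _).trans ((le_max_left _ _).trans hm)
  have h2 : m₂ ≤ m := (le_max_right _ _).trans ((le_max_left _ _).trans hm)
  have h3 : 1 ≤ m := (le_max_right _ _).trans hm
  have hcard := hm₁ m h1
  have hmR : (0 : ℝ) < m := by exact_mod_cast h3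
  set B : ℝ := ε * c / 8 * 2 ^ m / m with hB
  have hB0 : 0 ≤ B := by positivity
  have hpart := hm₂ m h2
  rw [Pset_two m h3]
  set P := (Finset.Ioc (2 ^ m) (2 ^ (m + 1))).filter Nat.Prime with hP
  have hmemP : ∀ p ∈ P, 2 ^ m < p ∧ p ≤ 2 ^ (m + 1) := by
    intro p hp
    rw [hP, Finset.mem_filter, Finset.mem_Ioc] at hp
    exact hp.1
  have hp0 : ∀ p ∈ P, (0 : ℝ) < p := by
    intro p hp
    have := (hmemP p hp).1
    have h5 : 0 < p := lt_of_le_of_lt (Nat.zero_le _) this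
    exact_mod_cast h5
  have h2m : (0 : ℝ) < 2 ^ m := by positivity
  -- the bound
  have key : ‖∑ p ∈ P, (w p : ℂ) * ee (θ * p)‖ ≤ (2 * 2 ^ m) * (1 / 2 ^ m * (2 * B)) := by
    have e1 : ∑ p ∈ P, (w p : ℂ) * ee (θ * p) =
        ∑ p ∈ P, (((p : ℝ) * w p : ℝ) : ℂ) * ((((1 / (p : ℝ)) : ℝ) : ℂ) * ee (θ * p)) := by
      refine Finset.sum_congr rfl fun p hp => ?_
      have h5 := (hp0 p hp).ne'
      rw [← mul_assoc, ← Complex.ofReal_mul]
      congr 2
      field_simp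
    rw [e1]
    refine inc_bd P (fun p => (((1 / (p : ℝ)) : ℝ) : ℂ) * ee (θ * p)) (1 / 2 ^ m * (2 * B))
      (fun p => (p : ℝ) * w p) (2 * 2 ^ m) ?_ ?_ ?_ (by positivity) (by positivity) ?_
    · intro p hp
      exact mul_nonneg (hp0 p hp).le (hw.nn p)
    · intro p hp
      have h5 : (p : ℝ) ≤ 2 * 2 ^ m := by
        have := (hmemP p hp).2
        rw [pow_succ, mul_comm] at this
        exact_mod_cast this
      calc (p : ℝ) * w p ≤ p * 1 := mul_le_mul_of_nonneg_left (hw.le p) (hp0 p hp).le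
        _ ≤ _ := by linarith
    · intro p hp q hq hpq
      have hp' : p ∈ Pset 2 m := by rw [Pset_two m h3]; exact hp
      have hq' : q ∈ Pset 2 m := by rw [Pset_two m h3]; exact hq
      exact hw.mo m p hp' q hq' hpq
    · intro T hT hup
      refine dec_bd T (fun p => ee (θ * p)) (2 * B) (fun p => 1 / (p : ℝ)) (1 / 2 ^ m) ?_ ?_ ?_
        (by positivity) (by positivity) ?_
      · intro p hp
        have := hp0 p (hT hp)
        positivity
      · intro p hp
        refine one_div_le_one_div_of_le h2m ?_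
        have := (hmemP p (hT hp)).1.le
        exact_mod_cast this
      · intro p hp q hq hpq
        refine one_div_le_one_div_of_le (hp0 p (hT hp)) ?_
        exact_mod_cast hpq
      · intro R hR hdown
        refine convex_bd θ m B hB0 hpart R (hR.trans hT) ?_
        intro x hx z hz y hy hxy hyz
        have hyT : y ∈ T := hup x (hR hx) y hy hxy
        exact hdown z hz y hyT hyz
  have hcpos : (0 : ℝ) < (P.card : ℝ) := lt_of_lt_of_le (by positivity) hcard
  rw [Real.dist_eq, sub_zero, abs_of_nonneg (by positivity), div_lt_iff₀ hcpos]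
  have e2 : (2 * 2 ^ m) * (1 / 2 ^ m * (2 * B)) = 4 * B := by
    field_simp
    ring
  rw [e2] at key
  have e3 : 4 * B = (ε / 2) * (c * 2 ^ m / m) := by rw [hB]; ring
  calc ‖∑ p ∈ P, (w p : ℂ) * ee (θ * p)‖ ≤ (ε / 2) * (c * 2 ^ m / m) := by rw [← e3]; exact key
    _ ≤ (ε / 2) * P.card := mul_le_mul_of_nonneg_left hcard (by positivity)
    _ < ε * P.card := by
        apply mul_lt_mul_of_pos_right _ hcpos
        linarith

end Pool.Agent.H67.X
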