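import Pool.Agent.H83.X.T3

/-!
Theorem X, modules XMO and XMT.
-/

set_option autoImplicit false

open MeasureTheory ProbabilityTheory Filter Topology Finset
open scoped Nat ENNReal

namespace Pool.Agent.H67.X

open Pool.Agent.H83.X
open Pool.Agent.H24.T2 (Pset)
open Pool.Agent.H28.MCL (ldB Aw)
open Pool.Agent.H28.LF (ptS LX Xi LY Yi lX lY xiY LwY)

theorem xi_pt (τ : ℕ → ℕ → Bool) (n p : ℕ) : (xiY p (ptS (lY τ) n) 0).2 = τ (n / p) := by
  have h1 : ((n : ℤ) + 0).toNat = n := by simp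
  have h2 : (((n / p : ℕ) : ℤ) + 0).toNat = n / p := by rw [add_zero, Int.toNat_natCast]
  unfold xiY ptS lY
  simp only [h1]
  rw [ptS]
  simp only [h2]
  rfl

theorem pf_XMO : T_XMO := by
  intro R U x y τ P hA hL hld
  have := hL.prob
  rw [ae_all_iff]
  intro p
  rw [ae_all_iff]
  intro p'
  by_cases hp : 0 < p
  swap
  · exact Filter.Eventually.of_forall fun ω h => absurd h hp
  by_cases hpp : p < p'
  swap
  · exact Filter.Eventually.of_forall fun ω _ h => absurd h hpp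
  set C : Set Yi := {ω | ¬ ((p : ℝ) * vR R (xiY p ω 0).2 ≤ p' * vR R (xiY p' ω 0).2 + 2 * p' / R)}
    with hC
  let g : Yi → (Fin R → Bool) × (Fin R → Bool) :=
    fun ω => (fun s => (xiY p ω 0).2 s, fun s => (xiY p' ω 0).2 s)
  have hg : Continuous g := by
    refine Continuous.prodMk ?_ ?_
    · refine continuous_pi fun s => ?_
      exact (continuous_apply (s : ℕ)).comp (continuous_snd.comp ((continuous_apply (0 : ℤ)).comp
        ((continuous_apply p).comp (continuous_snd.comp (continuous_snd.comp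
          (continuous_apply (0 : ℤ)))))))
    · refine continuous_pi fun s => ?_
      exact (continuous_apply (s : ℕ)).comp (continuous_snd.comp ((continuous_apply (0 : ℤ)).comp
        ((continuous_apply p').comp (continuous_snd.comp (continuous_snd.comp
          (continuous_apply (0 : ℤ)))))))
  have hv : ∀ b : ℕ → Bool, vR R b = (∑ s : Fin R, if b s then (1 : ℝ) else 0) / R := by
    intro b
    unfold vR
    rw [Finset.sum_range]
  have hCl : IsClopen C := by
    have : C = g ⁻¹' {q | ¬ ((p : ℝ) * ((∑ s : Fin R, if q.1 s then (1 : ℝ) else 0) / R) ≤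
        p' * ((∑ s : Fin R, if q.2 s then (1 : ℝ) else 0) / R) + 2 * p' / R)} := by
      ext ω
      rw [hC, Set.mem_preimage]
      simp only [Set.mem_ofPred_eq, hv, g]
    rw [this]
    exact (isClopen_discrete _).preimage hg
  have h1 := hL.clo C hCl
  have h2 : {n | ptS (lY τ) n ∈ C} =
      {n : ℕ | ¬ ((p : ℝ) * vR R (τ (n / p)) ≤ p' * vR R (τ (n / p')) + 2 * p' / R)} := by
    ext n
    rw [hC]
    simp only [Set.mem_ofPred_eq, xi_pt]
  rw [h2, hld p p' hp hpp] at h1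
  have h3 : P C = 0 := by
    rwa [Measure.real, ENNReal.toReal_eq_zero_iff, or_iff_left (measure_ne_top P C)] at h1
  rw [ae_iff]
  refine measure_mono_null ?_ h3
  intro ω hω
  rw [hC]
  simp only [Set.mem_ofPred_eq] at hω ⊢
  intro h
  exact hω fun _ _ => h

theorem Pset_uniq {m m' p : ℕ} (h : p ∈ Pset 2 m) (h' : p ∈ Pset 2 m') : m = m' := by
  unfold Pset at h h'
  rw [Finset.mem_filter, Finset.mem_Ioc] at h h'
  have h1 : 2 ^ m < 2 ^ (m' + 1) := lt_of_lt_of_le h.1.1 h'.1.2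
  have h2 : 2 ^ m' < 2 ^ (m + 1) := lt_of_lt_of_le h'.1.1 h.1.2
  have h3 := (Nat.pow_lt_pow_iff_right (by norm_num : 1 < 2)).1 h1
  have h4 := (Nat.pow_lt_pow_iff_right (by norm_num : 1 < 2)).1 h2
  omega

theorem Pset_prime {m p : ℕ} (h : p ∈ Pset 2 m) : p.Prime := by
  unfold Pset at h
  exact (Finset.mem_filter.1 h).2.1

theorem pf_XMT : T_XMT := by
  intro R v hR hv hmo
  let A : ℕ → Set ℝ := fun p => {x | ∃ m q, q ∈ Pset 2 m ∧ p ∈ Pset 2 m ∧ q ≤ p ∧ x = q * v q}
  have hAle : ∀ p, ∀ x ∈ A p, x ≤ p := by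
    rintro p x ⟨m, q, hq, _, hqp, rfl⟩
    have h1 : (q : ℝ) * v q ≤ q * 1 := mul_le_mul_of_nonneg_left (hv q).2 (Nat.cast_nonneg _)
    have h2 : (q : ℝ) ≤ p := by exact_mod_cast hqp
    linarith
  have hAnn : ∀ p, ∀ x ∈ A p, 0 ≤ x := by
    rintro p x ⟨m, q, hq, _, hqp, rfl⟩
    exact mul_nonneg (Nat.cast_nonneg _) (hv q).1
  have hbdd : ∀ p, BddAbove (A p) := fun p => ⟨p, hAle p⟩
  have hs0 : ∀ p, 0 ≤ sSup (A p) := fun p => Real.sSup_nonneg (hAnn p)
  have hsp : ∀ p, sSup (A p) ≤ p := fun p => Real.sSup_le (hAle p) (Nat.cast_nonneg _)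
  have hmem : ∀ m, ∀ p ∈ Pset 2 m, (p : ℝ) * v p ∈ A p := fun m p hp => ⟨m, p, hp, hp, le_rfl, rfl⟩
  refine ⟨fun p => sSup (A p) / p, ⟨?_, ?_, ?_⟩, ?_⟩
  · intro p
    exact div_nonneg (hs0 p) (Nat.cast_nonneg _)
  · intro p
    exact div_le_one_of_le₀ (hsp p) (Nat.cast_nonneg _)
  · intro m p hp p' hp' hpp
    have h0 : (0 : ℝ) < p := by exact_mod_cast (Pset_prime hp).pos
    have h0' : (0 : ℝ) < p' := by exact_mod_cast (Pset_prime hp').pos
    show (p : ℝ) * (sSup (A p) / p) ≤ p' * (sSup (A p') / p')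
    rw [mul_div_cancel₀ _ h0.ne', mul_div_cancel₀ _ h0'.ne']
    refine csSup_le_csSup (hbdd p') ⟨_, hmem m p hp⟩ ?_
    rintro x ⟨m', q, hq, hpm, hqp, rfl⟩
    have : m' = m := Pset_uniq hpm hp
    subst this
    exact ⟨m', q, hq, hp', hqp.trans hpp, rfl⟩
  · intro m p hp
    have hpr := Pset_prime hp
    have h0 : (0 : ℝ) < p := by exact_mod_cast hpr.pos
    have hRr : (0 : ℝ) < R := by exact_mod_cast hR
    have h1 : (p : ℝ) * v p ≤ sSup (A p) := le_csSup (hbdd p) (hmem m p hp)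
    have h2 : sSup (A p) ≤ p * v p + 2 * p / R := by
      refine csSup_le ⟨_, hmem m p hp⟩ ?_
      rintro x ⟨m', q, hq, hpm, hqp, rfl⟩
      rcases eq_or_lt_of_le hqp with e | e
      · rw [e]
        have : (0 : ℝ) ≤ 2 * p / R := by positivity
        linarith
      · exact hmo q p (Pset_prime hq) hpr e
    have h3 : v p ≤ sSup (A p) / p := by
      rw [le_div_iff₀ h0]; linarith
    have h4 : sSup (A p) / p ≤ v p + 2 / R := by
      rw [div_le_iff₀ h0]
      have : (v p + 2 / R) * p = p * v p + 2 * p / R := by ring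
      rw [this]; exact h2
    show |sSup (A p) / p - v p| ≤ 2 / R
    rw [abs_le]
    have : (0 : ℝ) ≤ 2 / R := by positivity
    constructor <;> linarith

end Pool.Agent.H67.X
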